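import Pool.Agent.U180.DP.Stm

/-! Project DP (helper180), package MEAN: the mean number of displaced primes in intervals up to length `x`. -/

set_option autoImplicit false

open MeasureTheory ProbabilityTheory Filter Topology

namespace Pool.Agent.U492.DP

open Pool.Agent.U180.DP

theorem amp_nonneg (A : ℝ) (p : ℕ) : 0 ≤ amp A p := by
  unfold amp
  have h : 0 ≤ Real.log p := Real.log_natCast_nonneg p
  have := Real.rpow_nonneg h A
  positivity

theorem prb_add (A x y₁ y₂ : ℝ) (h1 : 0 ≤ y₁) (h2 : 0 ≤ y₂) (p : ℕ) :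
    prb A x (y₁ + y₂) p = prb A x y₁ p + prb A (x + y₁) y₂ p := by
  unfold prb
  rw [← add_div]
  congr 1
  have ha := amp_nonneg A p
  set a : ℝ := (p : ℝ)
  set c : ℝ := amp A p
  have e : x + (y₁ + y₂) = x + y₁ + y₂ := by ring
  rw [e]
  rcases le_total (a + c) (x + y₁ + y₂) with h3 | h3 <;> rcases le_total a x with h4 | h4 <;>
    rcases le_total (a + c) (x + y₁) with h5 | h5 <;> rcases le_total a (x + y₁) with h6 | h6 <;>
    simp only [min_eq_left, min_eq_right, max_eq_left, max_eq_right, h3, h4, h5, h6] <;>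
    simp only [max_def] <;> split_ifs <;> linarith

theorem prb_zero_len (A x : ℝ) (p : ℕ) : prb A x 0 p = 0 := by
  unfold prb
  have h : min ((p : ℝ) + amp A p) (x + 0) - max (p : ℝ) x ≤ 0 := by
    have h1 := min_le_right ((p : ℝ) + amp A p) (x + 0)
    have h2 := le_max_right (p : ℝ) x
    linarith
  rw [max_eq_left h, zero_div]

theorem prb_zero (A x y : ℝ) (p : ℕ) (h : x + y ≤ p) : prb A x y p = 0 := by
  unfold prb
  have h : min ((p : ℝ) + amp A p) (x + y) - max (p : ℝ) x ≤ 0 := by
    have h1 := min_le_right ((p : ℝ) + amp A p) (x + y)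
    have h2 := le_max_left (p : ℝ) x
    linarith
  rw [max_eq_left h, zero_div]

theorem mem_prm {t : ℝ} (ht : 0 ≤ t) {p : ℕ} : p ∈ prm t ↔ (p : ℝ) ≤ t ∧ p.Prime := by
  unfold prm
  rw [Finset.mem_filter, Finset.mem_range, Nat.lt_succ_iff, Nat.le_floor_iff ht]

/-- the mean number -/
noncomputable def S (A x y : ℝ) : ℝ := ∑ p ∈ prm (x + y), prb A x y p

theorem S_ext (A x y z : ℝ) (hx : 0 ≤ x + y) (h : x + y ≤ z) : S A x y = ∑ p ∈ prm z, prb A x y p := by
  unfold S
  apply Finset.sum_subset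
  · intro p hp
    rw [mem_prm hx] at hp
    rw [mem_prm (hx.trans h)]
    exact ⟨hp.1.trans h, hp.2⟩
  · intro p hp hn
    rw [mem_prm (hx.trans h)] at hp
    rw [mem_prm hx] at hn
    apply prb_zero
    by_contra hcon
    push Not at hcon
    exact hn ⟨hcon.le, hp.2⟩

theorem S_add (A x y₁ y₂ : ℝ) (hx : 0 ≤ x) (h1 : 0 ≤ y₁) (h2 : 0 ≤ y₂) :
    S A x (y₁ + y₂) = S A x y₁ + S A (x + y₁) y₂ := by
  rw [S_ext A x y₁ (x + y₁ + y₂) (by linarith) (by linarith), S_ext A (x + y₁) y₂ (x + y₁ + y₂) (by linarith) le_rfl,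
    S_ext A x (y₁ + y₂) (x + y₁ + y₂) (by linarith) (by linarith), ← Finset.sum_add_distrib]
  exact Finset.sum_congr rfl fun p _ => prb_add A x y₁ y₂ h1 h2 p

theorem S_sum (A x s : ℝ) (hx : 0 ≤ x) (hs : 0 ≤ s) (k : ℕ) :
    S A x (k * s) = ∑ i ∈ Finset.range k, S A (x + i * s) s := by
  induction k with
  | zero =>
    simp only [Nat.cast_zero, zero_mul, Finset.range_zero, Finset.sum_empty]
    unfold S
    exact Finset.sum_eq_zero fun p _ => prb_zero_len A x p
  | succ k ih =>
    rw [Finset.sum_range_succ, ← ih, ← S_add A x (k * s) s hx (by positivity) hs]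
    congr 1
    push_cast
    ring

theorem t_MEAN (h : S_DENS) : S_MEAN := by
  intro A ε hA hε
  set δ : ℝ := min (ε / 2) (1 / 2) with hδ
  have hδ0 : 0 < δ := by positivity
  have hδ1 : δ ≤ 1 / 2 := min_le_right _ _
  have hδ2 : δ ≤ ε / 2 := min_le_left _ _
  obtain ⟨X, hX⟩ := h A 1 δ hA one_pos hδ0
  refine ⟨max X (max 3 (Real.exp (Real.log 2 / δ))), ?_⟩
  intro x y hx hy hyx
  have hxX : X ≤ x := (le_max_left _ _).trans hx
  have hx3 : 3 ≤ x := ((le_max_left _ _).trans (le_max_right _ _)).trans hx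
  have hxe : Real.exp (Real.log 2 / δ) ≤ x := ((le_max_right _ _).trans (le_max_right _ _)).trans hx
  have hx0 : 0 < x := by linarith
  have hL : 0 < Real.log x := Real.log_pos (by linarith)
  have hl2 : 0 < Real.log 2 := Real.log_pos one_lt_two
  have hLe : Real.log 2 / δ ≤ Real.log x := (Real.le_log_iff_exp_le hx0).2 hxe
  have hLe' : Real.log 2 ≤ δ * Real.log x := by
    rw [div_le_iff₀ hδ0] at hLe
    linarith
  set k : ℕ := ⌈y / Real.log x⌉₊ with hk
  have hk0 : 0 < k := Nat.ceil_pos.2 (by positivity)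
  have hkR : (0 : ℝ) < k := by exact_mod_cast hk0
  have hky : y / Real.log x ≤ k := Nat.le_ceil _
  set s : ℝ := y / k with hs
  have hs0 : 0 < s := by positivity
  have hsL : s ≤ Real.log x := by
    rw [hs, div_le_iff₀ hkR]
    rw [div_le_iff₀ hL] at hky
    linarith
  have hks : (k : ℝ) * s = y := by rw [hs]; field_simp
  have hmain : ∑ p ∈ prm (x + y), prb A x y p = ∑ i ∈ Finset.range k, S A (x + i * s) s := by
    rw [← S_sum A x s hx0.le hs0.le k, hks]
    rfl
  rw [hmain]
  have hi : ∀ i ∈ Finset.range k, (1 - δ) * (s / ((1 + δ) * Real.log x)) ≤ S A (x + i * s) s ∧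
      S A (x + i * s) s ≤ (1 + δ) * (s / Real.log x) := by
    intro i hik
    rw [Finset.mem_range] at hik
    have hik' : (i : ℝ) ≤ k := by exact_mod_cast hik.le
    have his : (i : ℝ) * s ≤ y := by
      rw [← hks]
      exact mul_le_mul_of_nonneg_right hik' hs0.le
    have his0 : 0 ≤ (i : ℝ) * s := by positivity
    set t : ℝ := x + i * s with ht
    have htx : x ≤ t := by linarith
    have ht2 : t ≤ 2 * x := by linarith
    have ht0 : 0 < t := by linarith
    have hLt : Real.log x ≤ Real.log t := Real.log_le_log hx0 htx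
    have hLt2 : Real.log t ≤ (1 + δ) * Real.log x := by
      have h1 : Real.log t ≤ Real.log (2 * x) := Real.log_le_log ht0 ht2
      rw [Real.log_mul two_ne_zero hx0.ne'] at h1
      linarith
    have hLt0 : 0 < Real.log t := by linarith
    have h1 := (hX t s (hxX.trans htx) hs0 (by rw [Real.rpow_one]; linarith)).1
    have h2 : |S A t s - s / Real.log t| ≤ δ * (s / Real.log t) := h1
    rw [abs_le] at h2
    have h3 : s / Real.log t ≤ s / Real.log x := div_le_div_of_nonneg_left hs0.le hL hLt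
    have h4 : s / ((1 + δ) * Real.log x) ≤ s / Real.log t := div_le_div_of_nonneg_left hs0.le hLt0 hLt2
    constructor
    · have h5 : (1 - δ) * (s / ((1 + δ) * Real.log x)) ≤ (1 - δ) * (s / Real.log t) :=
        mul_le_mul_of_nonneg_left h4 (by linarith)
      linarith [h2.1]
    · have h5 : (1 + δ) * (s / Real.log t) ≤ (1 + δ) * (s / Real.log x) :=
        mul_le_mul_of_nonneg_left h3 (by linarith)
      linarith [h2.2]
  have hup : ∑ i ∈ Finset.range k, S A (x + i * s) s ≤ (1 + δ) * (y / Real.log x) := by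
    calc ∑ i ∈ Finset.range k, S A (x + i * s) s ≤ ∑ _i ∈ Finset.range k, (1 + δ) * (s / Real.log x) :=
          Finset.sum_le_sum fun i h => (hi i h).2
      _ = (1 + δ) * (k * s / Real.log x) := by
          rw [Finset.sum_const, Finset.card_range, nsmul_eq_mul]; ring
      _ = _ := by rw [hks]
  have hlow : (1 - δ) * (y / ((1 + δ) * Real.log x)) ≤ ∑ i ∈ Finset.range k, S A (x + i * s) s := by
    calc (1 - δ) * (y / ((1 + δ) * Real.log x)) = ∑ _i ∈ Finset.range k, (1 - δ) * (s / ((1 + δ) * Real.log x)) := by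
          rw [Finset.sum_const, Finset.card_range, nsmul_eq_mul, ← hks]; ring
      _ ≤ _ := Finset.sum_le_sum fun i h => (hi i h).1
  have hz0 : 0 < y / Real.log x := by positivity
  have hlow2 : (1 - 2 * δ) * (y / Real.log x) ≤ (1 - δ) * (y / ((1 + δ) * Real.log x)) := by
    have e : (1 - δ) * (y / ((1 + δ) * Real.log x)) = ((1 - δ) / (1 + δ)) * (y / Real.log x) := by
      field_simp
    rw [e]
    refine mul_le_mul_of_nonneg_right ?_ hz0.le
    rw [le_div_iff₀ (by linarith)]
    nlinarith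
  rw [abs_le]
  constructor
  · nlinarith
  · nlinarith

end Pool.Agent.U492.DP
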